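import Mathlib

/-!
Definitions: realisations of a graph in the plane, equivalence, congruence, genericity,
generic rigidity, and the congruence classes of equivalent complex realisations.
-/

namespace Pool.Agent.MP_95b452_co

/-- The quadratic form `d(x) = x₁² + x₂²`. -/
def sqLen {K : Type} [Field K] (x : Fin 2 → K) : K := x 0 ^ 2 + x 1 ^ 2

/-- Two realisations of `G` are equivalent if `d` agrees on every edge. -/
def Equivalent {V K : Type} [Field K] (G : SimpleGraph V) (p q : V → Fin 2 → K) : Prop :=
  ∀ u v, G.Adj u v → sqLen (p u - p v) = sqLen (q u - q v)

/-- Two realisations are congruent if `d` agrees on every pair of vertices. -/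
def Congruent {V K : Type} [Field K] (p q : V → Fin 2 → K) : Prop :=
  ∀ u v, sqLen (p u - p v) = sqLen (q u - q v)

/-- A realisation is generic if its coordinates are algebraically independent over `ℚ`. -/
def Generic {V K : Type} [Field K] [Algebra ℚ K] (p : V → Fin 2 → K) : Prop :=
  AlgebraicIndependent ℚ fun a : V × Fin 2 => p a.1 a.2

/-- `G` is generically rigid in the plane: for every generic real realisation `p`, every
equivalent real realisation close enough to `p` is congruent to `p`. -/
def Rigid {V : Type} (G : SimpleGraph V) : Prop :=
  ∀ p : V → Fin 2 → ℝ, Generic p → ∀ᶠ q in nhds p, Equivalent G p q → Congruent p q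

/-- The congruence classes of complex realisations equivalent to `p`. -/
def classes {V : Type} (G : SimpleGraph V) (p : V → Fin 2 → ℂ) : Set (Set (V → Fin 2 → ℂ)) :=
  {C | ∃ q, Equivalent G p q ∧ C = {r | Congruent q r}}

end Pool.Agent.MP_95b452_co
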