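import Mathlib

/-!
Field-theoretic tools: automorphisms of the complex numbers moving algebraically independent
families, derivations with prescribed values, density of algebraically independent families.
-/

set_option linter.style.haveILetI false

namespace Pool.Agent.MP_95b452_co

open Cardinal MvPolynomial

theorem countable_mvPoly (ι R : Type) [CommRing R] [Countable R] [Countable ι] :
    Countable (MvPolynomial ι R) := by
  rw [← Cardinal.mk_le_aleph0_iff]
  refine MvPolynomial.cardinalMk_le_max.trans ?_
  simp [Cardinal.mk_le_aleph0]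

theorem exists_aut_aux {K A B : Type} [Field K] [IsAlgClosed K] (hC : ℵ₀ < #K)
    [CommRing A] [CommRing B] [Nontrivial A] [Nontrivial B] [Countable A] [Countable B]
    (iA : Algebra A K) (iB : Algebra B K) (hA : Function.Injective (algebraMap A K))
    (hB : Function.Injective (algebraMap B K)) (e : A ≃+* B) :
    ∃ σ : K ≃+* K, ∀ x : A, σ (algebraMap A K x) = algebraMap B K (e x) := by
  haveI : FaithfulSMul A K := (faithfulSMul_iff_algebraMap_injective _ _).2 hA
  haveI : FaithfulSMul B K := (faithfulSMul_iff_algebraMap_injective _ _).2 hB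
  obtain ⟨s, hs⟩ := exists_isTranscendenceBasis A K
  obtain ⟨t, ht⟩ := exists_isTranscendenceBasis B K
  have h1 := IsAlgClosed.cardinal_eq_cardinal_transcendence_basis_of_aleph0_lt' _ hs
    Cardinal.mk_le_aleph0 hC
  have h2 := IsAlgClosed.cardinal_eq_cardinal_transcendence_basis_of_aleph0_lt' _ ht
    Cardinal.mk_le_aleph0 hC
  obtain ⟨f⟩ := Cardinal.eq.1 (h1.symm.trans h2)
  haveI := IsAlgClosed.isAlgClosure_of_transcendence_basis _ hs
  haveI := IsAlgClosed.isAlgClosure_of_transcendence_basis _ ht
  obtain ⟨g, hg⟩ : ∃ g : Algebra.adjoin A (Set.range ((↑) : s → K)) ≃+*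
      Algebra.adjoin B (Set.range ((↑) : t → K)),
      ∀ x : A, g (algebraMap A _ x) = algebraMap B _ (e x) := by
    refine ⟨hs.1.aevalEquiv.symm.toRingEquiv.trans (((MvPolynomial.mapEquiv s e).trans
      (MvPolynomial.renameEquiv B f).toRingEquiv).trans ht.1.aevalEquiv.toRingEquiv), fun x => ?_⟩
    have h3 := hs.1.aevalEquiv.symm.commutes x
    have h4 := (MvPolynomial.renameEquiv B f).commutes (e x)
    have h5 := ht.1.aevalEquiv.commutes (e x)
    have h6 : MvPolynomial.mapEquiv s e (algebraMap A _ x) = algebraMap B _ (e x) := by simp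
    simp only [RingEquiv.trans_apply, AlgEquiv.coe_ringEquiv]
    rw [h3, h6, h4, h5]
  refine ⟨IsAlgClosure.equivOfEquiv K K g, fun x => ?_⟩
  have := IsAlgClosure.equivOfEquiv_algebraMap K K g (algebraMap A _ x)
  rw [hg, ← IsScalarTower.algebraMap_apply, ← IsScalarTower.algebraMap_apply] at this
  exact this

theorem exists_aut {R ι : Type} [CommRing R] [Nontrivial R] [Countable R] [Algebra R ℂ]
    [Countable ι] {a b : ι → ℂ} (ha : AlgebraicIndependent R a) (hb : AlgebraicIndependent R b) :
    ∃ σ : ℂ ≃+* ℂ, (∀ r : R, σ (algebraMap R ℂ r) = algebraMap R ℂ r) ∧ ∀ i, σ (a i) = b i := by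
  haveI := countable_mvPoly ι R
  obtain ⟨σ, hσ⟩ := exists_aut_aux (K := ℂ) (A := MvPolynomial ι R) (B := MvPolynomial ι R)
    (by rw [Cardinal.mk_complex]; exact Cardinal.aleph0_lt_continuum)
    (aeval a : MvPolynomial ι R →ₐ[R] ℂ).toRingHom.toAlgebra
    (aeval b : MvPolynomial ι R →ₐ[R] ℂ).toRingHom.toAlgebra ha hb (RingEquiv.refl _)
  have h : ∀ x : MvPolynomial ι R, σ (aeval a x) = aeval b x := hσ
  exact ⟨σ, fun r => by simpa using h (C r), fun i => by simpa using h (X i)⟩

theorem formallySmooth_field (F E : Type*) [Field F] [Field E] [Algebra F E] [CharZero F] :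
    Algebra.FormallySmooth F E := by
  obtain ⟨s, hs⟩ := exists_isTranscendenceBasis F E
  have h1 := hs.isAlgebraic_field
  have : Algebra.IsSeparable (IntermediateField.adjoin F (Set.range ((↑) : s → E))) E :=
    Algebra.IsAlgebraic.isSeparable_of_perfectField
  exact .of_algebraicIndependent_of_isSeparable hs.1

theorem exists_deriv {ι E : Type} [Field E] [Algebra ℚ E] {a : ι → E}
    (ha : AlgebraicIndependent ℚ a) (δ : ι → E) :
    ∃ D : E →+ E, (∀ x y, D (x * y) = D x * y + x * D y) ∧ ∀ i, D (a i) = δ i := by
  let P := MvPolynomial ι ℚ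
  letI : Algebra P E := (aeval a : P →ₐ[ℚ] E).toRingHom.toAlgebra
  have hinj : Function.Injective (algebraMap P E) := ha
  haveI : FaithfulSMul P E := (faithfulSMul_iff_algebraMap_injective _ _).2 hinj
  letI : Algebra (FractionRing P) E := FractionRing.liftAlgebra P E
  haveI : IsScalarTower P (FractionRing P) E := FractionRing.isScalarTower_liftAlgebra _ _
  haveI : CharZero (FractionRing P) :=
    charZero_of_injective_algebraMap (IsFractionRing.injective P (FractionRing P))
  haveI h1 : Algebra.FormallySmooth (FractionRing P) E := formallySmooth_field _ _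
  haveI h2 : Algebra.FormallySmooth P (FractionRing P) :=
    Algebra.FormallySmooth.of_isLocalization (nonZeroDivisors P)
  haveI h3 : Algebra.FormallySmooth P E := Algebra.FormallySmooth.comp _ (FractionRing P) _
  let σ : P →+* DualNumber E :=
    eval₂Hom ((TrivSqZeroExt.inlHom E E).comp (algebraMap ℚ E))
      (fun i => TrivSqZeroExt.inl (a i) + TrivSqZeroExt.inr (δ i))
  letI : Algebra P (DualNumber E) := σ.toAlgebra
  let f0 : DualNumber E →+* E := (TrivSqZeroExt.fstHom E E E).toRingHom
  have hcomp : f0.comp σ = (aeval a : P →ₐ[ℚ] E).toRingHom := by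
    apply MvPolynomial.ringHom_ext
    · intro k; simp [σ, f0, P]
    · intro i; simp [σ, f0, P]
  let g : DualNumber E →ₐ[P] E :=
    { f0 with
      commutes' := fun p => by
        have := congrArg (fun h : P →+* E => h p) hcomp
        exact this }
  have hg : Function.Surjective g := fun x => ⟨TrivSqZeroExt.inl x, by simp [g, f0]⟩
  have hnil : IsNilpotent (RingHom.ker (g : DualNumber E →+* E)) := by
    refine ⟨2, ?_⟩
    rw [Submodule.pow_succ, Submodule.pow_one, Ideal.zero_eq_bot, eq_bot_iff, Ideal.mul_le]
    intro x hx y hy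
    have hx' : x.fst = 0 := hx
    have hy' : y.fst = 0 := hy
    rw [Ideal.mem_bot]
    ext <;> simp [hx', hy']
  let l := Algebra.FormallySmooth.liftOfSurjective (AlgHom.id P E) g hg hnil
  have hl : ∀ x, (l x).fst = x := fun x =>
    Algebra.FormallySmooth.liftOfSurjective_apply (AlgHom.id P E) g hg hnil x
  have hlp : ∀ p : P, l (aeval a p) = σ p := fun p => l.commutes p
  refine ⟨{ toFun := fun x => (l x).snd, map_zero' := by simp, map_add' := fun x y => by simp },
    fun x y => ?_, fun i => ?_⟩
  · simp [hl]; ring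
  · have := hlp (X i)
    rw [aeval_X] at this
    simp [this, σ, P]

/-- A rational polynomial vanishing near a point vanishes identically. -/
theorem poly_eq_zero_of_eventually {ι K : Type} [Finite ι] [NontriviallyNormedField K]
    [Algebra ℚ K] (P : MvPolynomial ι ℚ) (x : ι → K) (h : ∀ᶠ y in nhds x, aeval y P = 0) :
    P = 0 := by
  rw [nhds_pi, Filter.eventually_iff, Filter.mem_pi] at h
  obtain ⟨I, -, t, ht, hsub⟩ := h
  have h1 : MvPolynomial.map (algebraMap ℚ K) P = 0 := by
    refine MvPolynomial.funext_set t (fun i => infinite_of_mem_nhds (x i) (ht i)) ?_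
    intro y hy
    have := hsub (fun i _ => hy i trivial)
    rw [map_zero, MvPolynomial.eval_map, ← MvPolynomial.aeval_def]
    exact this
  exact MvPolynomial.map_injective _ (algebraMap ℚ K).injective (by rw [h1, map_zero])

theorem continuous_aeval' {ι K : Type} [NontriviallyNormedField K] [Algebra ℚ K]
    (P : MvPolynomial ι ℚ) : Continuous fun y : ι → K => aeval y P := by
  have := MvPolynomial.continuous_eval (MvPolynomial.map (algebraMap ℚ K) P)
  refine this.congr fun y => ?_
  rw [MvPolynomial.eval_map, ← MvPolynomial.aeval_def]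

theorem dense_indep (ι K : Type) [Finite ι] [NontriviallyNormedField K] [CompleteSpace K]
    [Algebra ℚ K] : Dense {a : ι → K | AlgebraicIndependent ℚ a} := by
  haveI := countable_mvPoly ι ℚ
  have h := dense_iInter_of_isOpen (X := ι → K) (ι := {P : MvPolynomial ι ℚ // P ≠ 0})
    (f := fun P => {y | aeval y P.1 ≠ 0})
    (fun P => isOpen_ne_fun (continuous_aeval' P.1) continuous_const)
    (fun P => by
      intro x
      by_contra hx
      rw [mem_closure_iff_frequently, Filter.not_frequently] at hx
      exact P.2 (poly_eq_zero_of_eventually P.1 x (hx.mono fun y hy => by simpa using hy)))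
  refine h.mono fun a ha => ?_
  rw [Set.mem_ofPred_eq, algebraicIndependent_iff]
  intro P hP
  by_contra h0
  exact Set.mem_iInter.1 ha ⟨P, h0⟩ hP

end Pool.Agent.MP_95b452_co
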